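import Mathlib.Topology.Homeomorph.Lemmas
import Mathlib.Topology.Algebra.ConstMulAction
import Mathlib.Data.Set.Lattice

/-! Refinement expansivity along a set of times. -/

set_option autoImplicit false

namespace Pool.Agent.MP_b50e26_gt.Times

/-- The homeomorphism `f` is refinement expansive along the set of times `S`: there is a finite
open cover `U` such that for every open cover `V` and every choice of indices `k` there is a finite
`F ⊆ S` with the intersection of the sets `f⁻ʲ U (k j)`, `j ∈ F`, contained in a member of `V`. -/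
def ExpAlong {X : Type*} [TopologicalSpace X] (f : X ≃ₜ X) (S : Set ℤ) : Prop :=
  ∃ (n : ℕ) (U : Fin n → Set X), (∀ i, IsOpen (U i)) ∧ ⋃ i, U i = Set.univ ∧
    ∀ V : Set (Set X), (∀ C ∈ V, IsOpen C) → ⋃₀ V = Set.univ → ∀ k : ℤ → Fin n,
      ∃ F : Finset ℤ, (F : Set ℤ) ⊆ S ∧ ∃ C ∈ V, {x : X | ∀ j ∈ F, (f ^ j) x ∈ U (k j)} ⊆ C

end Pool.Agent.MP_b50e26_gt.Times
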