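import Mathlib
import Pool.Agent.MP_b50e26_gt.Times.Defs

/-! For a set of times unbounded in both directions, an infinite subshift determined by its values
on that set: a two-point extension of a coding of a rotation. -/

set_option autoImplicit false

namespace Pool.Agent.MP_b50e26_gt.Times

open Set Filter Topology

theorem exists_alpha {S : Set ℤ} (hS : ¬ BddAbove S) : ∃ α : ℝ, Irrational α ∧
    ∀ a b : ℝ, a < b → ∃ s ∈ S, ∃ m : ℤ, a < s * α - m ∧ s * α - m < b := by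
  have h1 : ∀ᶠ α in residual ℝ, ∀ p : ℚ × ℚ, p.1 < p.2 →
      ∃ s ∈ S, ∃ m : ℤ, (p.1 : ℝ) < s * α - m ∧ s * α - m < p.2 := by
    refine eventually_countable_forall.2 fun p => ?_
    by_cases hp : p.1 < p.2
    · have hp' : (p.1 : ℝ) < p.2 := by exact_mod_cast hp
      refine mem_of_superset (residual_of_dense_open (s := {α : ℝ | ∃ s ∈ S, ∃ m : ℤ,
        (p.1 : ℝ) < s * α - m ∧ s * α - m < p.2}) ?_ ?_) fun α h _ => h
      · rw [isOpen_iff_mem_nhds]
        rintro α ⟨s, hs, m, h1, h2⟩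
        filter_upwards [(isOpen_lt continuous_const
            (by fun_prop : Continuous fun α : ℝ => s * α - m)).mem_nhds h1,
          (isOpen_lt (by fun_prop : Continuous fun α : ℝ => s * α - m)
            continuous_const).mem_nhds h2] with β h3 h4
        exact ⟨s, hs, m, h3, h4⟩
      · refine dense_of_exists_between fun u v huv => ?_
        obtain ⟨N, hN⟩ := exists_nat_gt (1 / (v - u))
        obtain ⟨s, hs, hNs⟩ := not_bddAbove_iff.1 hS (N : ℤ)
        have h2 : (N : ℝ) < s := by exact_mod_cast hNs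
        have h3 : (0 : ℝ) < s := lt_of_le_of_lt (Nat.cast_nonneg N) h2
        rw [div_lt_iff₀ (by linarith)] at hN
        set c : ℝ := ((p.1 : ℝ) + p.2) / 2 with hc
        have h4 := Int.floor_le (s * u - c)
        have h5 := Int.lt_floor_add_one (s * u - c)
        refine ⟨(c + (⌊s * u - c⌋ + 1 : ℤ)) / s, ⟨s, hs, ⌊s * u - c⌋ + 1, ?_, ?_⟩, ?_, ?_⟩
        · rw [mul_div_cancel₀ _ h3.ne']; linarith
        · rw [mul_div_cancel₀ _ h3.ne']; linarith
        · rw [lt_div_iff₀ h3]; push_cast; linarith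
        · rw [div_lt_iff₀ h3]; push_cast; nlinarith
    · exact Eventually.of_forall fun _ h => absurd h hp
  obtain ⟨α, h2, h3⟩ := (dense_of_mem_residual (eventually_residual_irrational.and h1)).nonempty
  refine ⟨α, h2, fun a b hab => ?_⟩
  obtain ⟨q, hq1, hq2⟩ := exists_rat_btwn hab
  obtain ⟨r, hr1, hr2⟩ := exists_rat_btwn hq2
  obtain ⟨s, hs, m, h4, h5⟩ := h3 (q, r) (by exact_mod_cast hr1)
  exact ⟨s, hs, m, hq1.trans h4, h5.trans hr2⟩

theorem exists_beta (α : ℝ) : ∃ β : ℝ, 0 < β ∧ β < 1 ∧ ∀ k m : ℤ, β ≠ k * α + m := by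
  obtain ⟨β, h1, h2⟩ := ((countable_range fun p : ℤ × ℤ => (p.1 : ℝ) * α + p.2).dense_compl
    ℝ).inter_open_nonempty (Ioo 0 1) isOpen_Ioo (nonempty_Ioo.2 one_pos)
  exact ⟨β, h1.1, h1.2, fun k m h => h2 ⟨(k, m), h.symm⟩⟩

def arcA (β : ℝ) : Set ℝ := {t | ∃ m : ℤ, m < t ∧ t < m + β}

def arcB (β : ℝ) : Set ℝ := {t | ∃ m : ℤ, m + β < t ∧ t < m + 1}

theorem isOpen_arcA (β : ℝ) : IsOpen (arcA β) := by
  have : arcA β = ⋃ m : ℤ, Ioo (m : ℝ) (m + β) := by ext t; simp [arcA]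
  rw [this]; exact isOpen_iUnion fun _ => isOpen_Ioo

theorem isOpen_arcB (β : ℝ) : IsOpen (arcB β) := by
  have : arcB β = ⋃ m : ℤ, Ioo ((m : ℝ) + β) (m + 1) := by ext t; simp [arcB]
  rw [this]; exact isOpen_iUnion fun _ => isOpen_Ioo

theorem arc_disj {β t : ℝ} (h0 : 0 < β) (h1 : β < 1) (hA : t ∈ arcA β) (hB : t ∈ arcB β) :
    False := by
  obtain ⟨m, h2, h3⟩ := hA
  obtain ⟨l, h4, h5⟩ := hB
  have h6 : m < l + 1 := by exact_mod_cast (by linarith : (m : ℝ) < l + 1)
  have h7 : l < m := by exact_mod_cast (by linarith : (l : ℝ) < m)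
  omega

theorem arc_off {β t : ℝ} (hA : t ∉ arcA β) (hB : t ∉ arcB β) :
    ∃ m : ℤ, t = m ∨ t = m + β := by
  refine ⟨⌊t⌋, ?_⟩
  by_contra h
  push Not at h
  rcases lt_or_gt_of_ne h.2 with h1 | h1
  · exact hA ⟨⌊t⌋, lt_of_le_of_ne (Int.floor_le t) h.1.symm, h1⟩
  · exact hB ⟨⌊t⌋, h1, Int.lt_floor_add_one t⟩

def Ok (α β θ : ℝ) (z : ℤ → Bool × Bool) : Prop :=
  ∀ n : ℤ, (θ + n * α ∈ arcA β → (z n).1 = true) ∧ (θ + n * α ∈ arcB β → (z n).1 = false) ∧
    (z (n + 1)).2 = xor (z n).2 (z n).1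

theorem Ok.int {α β θ : ℝ} {z : ℤ → Bool × Bool} (h : Ok α β θ z) (l : ℤ) :
    Ok α β (θ - l) z := by
  intro n
  refine ⟨fun ⟨m, h1, h2⟩ => (h n).1 ⟨m + l, ?_, ?_⟩,
    fun ⟨m, h1, h2⟩ => (h n).2.1 ⟨m + l, ?_, ?_⟩, (h n).2.2⟩ <;> push_cast <;> linarith

theorem Ok.shift {α β θ : ℝ} {z : ℤ → Bool × Bool} (h : Ok α β θ z) (j : ℤ) :
    Ok α β (θ + j * α) (fun n => z (n + j)) := by
  intro n
  have e : θ + j * α + n * α = θ + ((n + j : ℤ) : ℝ) * α := by push_cast; ring
  have := h (n + j)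
  rw [e]
  refine ⟨this.1, this.2.1, ?_⟩
  show (z (n + 1 + j)).2 = _
  rw [show n + 1 + j = n + j + 1 by ring]
  exact this.2.2

def sys (α β : ℝ) : Set (ℤ → Bool × Bool) := {z | ∃ θ, Ok α β θ z}

theorem isCompact_sys (α β : ℝ) : IsCompact (sys α β) := by
  have hc : IsClosed {p : ℝ × (ℤ → Bool × Bool) | Ok α β p.1 p.2} := by
    simp only [Ok, ofPred_forall]
    refine isClosed_iInter fun n => IsClosed.inter ?_ (IsClosed.inter ?_ ?_)
    · exact isClosed_imp ((isOpen_arcA β).preimage (by fun_prop))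
        (isClosed_eq (by fun_prop) continuous_const)
    · exact isClosed_imp ((isOpen_arcB β).preimage (by fun_prop))
        (isClosed_eq (by fun_prop) continuous_const)
    · refine isClosed_eq (by fun_prop) ?_
      exact (continuous_of_discreteTopology (f := fun q : Bool × Bool => xor q.2 q.1)).comp
        (by fun_prop : Continuous fun p : ℝ × (ℤ → Bool × Bool) => p.2 n)
  have := (((isCompact_Icc (a := (0 : ℝ)) (b := 1)).prod
    (isCompact_univ (X := ℤ → Bool × Bool))).inter_right hc).image continuous_snd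
  convert this using 1
  ext z
  constructor
  · rintro ⟨θ, h⟩
    exact ⟨(θ - ⌊θ⌋, z), ⟨⟨⟨Int.fract_nonneg θ, (Int.fract_lt_one θ).le⟩, trivial⟩, h.int _⟩, rfl⟩
  · rintro ⟨p, hp, rfl⟩
    exact ⟨p.1, hp.2⟩

theorem exists_ok {α β : ℝ} (h0 : 0 < β) (h1 : β < 1) (θ : ℝ) : ∃ z, Ok α β θ z := by
  classical
  set x : ℤ → Bool := fun n => decide (θ + n * α ∈ arcA β) with hx
  let p : ℕ → Bool := fun k => Nat.rec false (fun k b => xor b (x k)) k
  let q : ℕ → Bool := fun k => Nat.rec (x (-1)) (fun k b => xor b (x (Int.negSucc (k + 1)))) k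
  let y : ℤ → Bool := fun n => match n with
    | Int.ofNat k => p k
    | Int.negSucc k => q k
  refine ⟨fun n => (x n, y n), fun n => ⟨fun h => by simp [hx, h],
    fun h => by simpa [hx] using fun h' => arc_disj h0 h1 h' h, ?_⟩⟩
  show y (n + 1) = xor (y n) (x n)
  rcases n with k | k
  · rfl
  · rcases k with _ | k
    · show false = xor (x (-1)) (x (-1))
      simp
    · show q k = xor (xor (q k) (x (Int.negSucc (k + 1)))) (x (Int.negSucc (k + 1)))
      simp

section sep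

variable {S : Set ℤ} {α β : ℝ} (h0 : 0 < β) (h1 : β < 1)
  (hd : ∀ a b : ℝ, a < b → ∃ s ∈ S, ∃ m : ℤ, a < s * α - m ∧ s * α - m < b)

include h0 h1 hd in
theorem angle_eq {θ θ' : ℝ} {z z' : ℤ → Bool × Bool} (h : Ok α β θ z) (h' : Ok α β θ' z')
    (he : ∀ s ∈ S, z s = z' s) : ∃ m : ℤ, θ = θ' - m := by
  refine ⟨⌊θ' - θ⌋, ?_⟩
  by_contra hne
  have h2 := Int.floor_le (θ' - θ)
  have h3 := Int.lt_floor_add_one (θ' - θ)
  set l := ⌊θ' - θ⌋
  have h4 : 0 < θ' - θ - l := lt_of_le_of_ne (by linarith) fun h => hne (by linarith)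
  set δ := θ' - θ - l with hδ
  obtain ⟨s, hs, m, h5, h6⟩ := hd (max 0 (β - δ) - θ) (min β (1 - δ) - θ) (by
    have : max 0 (β - δ) < min β (1 - δ) :=
      max_lt (lt_min h0 (by linarith)) (lt_min (by linarith) (by linarith))
    linarith)
  have h7 := le_max_left 0 (β - δ)
  have h8 := le_max_right 0 (β - δ)
  have h9 := min_le_left β (1 - δ)
  have h10 := min_le_right β (1 - δ)
  have hA := (h s).1 ⟨m, by linarith, by linarith⟩
  have hB := (h' s).2.1 ⟨m + l, by push_cast; linarith, by push_cast; linarith⟩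
  rw [he s hs, hB] at hA
  exact Bool.false_ne_true hA

include h0 h1 hd in
theorem sys_sep (hα : Irrational α) (hβ : ∀ k m : ℤ, β ≠ k * α + m) (hu : ¬ BddAbove S)
    (hl : ¬ BddBelow S) {z z' : ℤ → Bool × Bool} (hz : z ∈ sys α β) (hz' : z' ∈ sys α β)
    (he : ∀ s ∈ S, z s = z' s) : z = z' := by
  obtain ⟨θ, h⟩ := hz
  obtain ⟨θ', h''⟩ := hz'
  obtain ⟨m, hm⟩ := angle_eq h0 h1 hd h h'' he
  have h' : Ok α β θ z' := hm ▸ h''.int m
  have hoff : ∀ n : ℤ, (z n).1 ≠ (z' n).1 → ∃ m : ℤ, θ + n * α = m ∨ θ + n * α = m + β :=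
    fun n hn => arc_off (fun hA => hn (by rw [(h n).1 hA, (h' n).1 hA]))
      fun hB => hn (by rw [(h n).2.1 hB, (h' n).2.1 hB])
  obtain ⟨p, hp⟩ : ∃ p : ℤ, ∀ n, n ≠ p → (z n).1 = (z' n).1 := by
    by_cases h2 : ∃ p, (z p).1 ≠ (z' p).1
    · obtain ⟨p, hp⟩ := h2
      refine ⟨p, fun n hn => ?_⟩
      by_contra h3
      obtain ⟨a, ha⟩ := hoff p hp
      obtain ⟨b, hb⟩ := hoff n h3
      have hi := (hα.intCast_mul (sub_ne_zero.2 hn)).ne_int (b - a)
      rcases ha with ha | ha <;> rcases hb with hb | hb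
      · exact hi (by push_cast; linarith)
      · exact hβ (n - p) (a - b) (by push_cast; linarith)
      · exact hβ (p - n) (b - a) (by push_cast; linarith)
      · exact hi (by push_cast; linarith)
    · push Not at h2
      exact ⟨0, fun n _ => h2 n⟩
  have hstep : ∀ n, n ≠ p → ((z (n + 1)).2 = (z' (n + 1)).2 ↔ (z n).2 = (z' n).2) := by
    intro n hn
    rw [(h n).2.2, (h' n).2.2, hp n hn]
    cases (z n).2 <;> cases (z' n).2 <;> cases (z' n).1 <;> simp
  have hup : ∀ n, p + 1 ≤ n → ((z n).2 = (z' n).2 ↔ (z (p + 1)).2 = (z' (p + 1)).2) := by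
    intro n hn
    induction n, hn using Int.leInduction with
    | base => rfl
    | succ n hn ih => rw [hstep n (by omega), ih]
  have hdn : ∀ n, n ≤ p → ((z n).2 = (z' n).2 ↔ (z p).2 = (z' p).2) := by
    intro n hn
    induction n, hn using Int.leInductionDown with
    | base => rfl
    | pred n hn ih => rw [← hstep (n - 1) (by omega), sub_add_cancel, ih]
  obtain ⟨s, hs, hps⟩ := not_bddAbove_iff.1 hu p
  obtain ⟨t, ht, htp⟩ := not_bddBelow_iff.1 hl p
  have h2 := (hup s (by omega)).1 (by rw [he s hs])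
  have h3 := (hdn t htp.le).1 (by rw [he t ht])
  funext n
  refine Prod.ext ?_ ?_
  · by_cases hn : n = p
    · subst hn
      rw [(h n).2.2, (h' n).2.2, h3] at h2
      revert h2
      cases (z n).1 <;> cases (z' n).1 <;> cases (z' n).2 <;> simp
    · exact hp n hn
  · rcases le_or_gt n p with hn | hn
    · exact (hdn n hn).2 h3
    · exact (hup n (by omega)).2 h2

include h0 h1 hd in
theorem sys_infinite : Infinite (sys α β) := by
  choose z hz using exists_ok (α := α) h0 h1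
  have : Infinite (Ioo (0 : ℝ) 1) := Ioo.infinite one_pos
  refine Infinite.of_injective (fun θ : Ioo (0 : ℝ) 1 => (⟨z θ, θ, hz θ⟩ : sys α β)) ?_
  rintro ⟨θ, h2, h3⟩ ⟨θ', h4, h5⟩ he
  have he' : z θ = z θ' := congrArg Subtype.val he
  obtain ⟨m, hm⟩ := angle_eq h0 h1 hd (hz θ) (hz θ') fun s _ => by rw [he']
  have h6 : m < 1 := by exact_mod_cast (by linarith : (m : ℝ) < 1)
  have h7 : -1 < m := by exact_mod_cast (by linarith : (-1 : ℝ) < m)
  obtain rfl : m = 0 := by omega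
  exact Subtype.ext (by simpa using hm)

end sep

theorem cont_shift (α β : ℝ) (j : ℤ) (h : ∀ z : sys α β, (fun n => z.1 (n + j)) ∈ sys α β) :
    Continuous fun z : sys α β => (⟨fun n => z.1 (n + j), h z⟩ : sys α β) :=
  Continuous.subtype_mk
    (continuous_pi fun n => (continuous_apply (n + j)).comp continuous_subtype_val) h

/-- The shift. -/
def shift (α β : ℝ) : sys α β ≃ₜ sys α β where
  toFun z := ⟨fun n => z.1 (n + 1), z.2.elim fun _ h => ⟨_, h.shift 1⟩⟩
  invFun z := ⟨fun n => z.1 (n + -1), z.2.elim fun _ h => ⟨_, h.shift (-1)⟩⟩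
  left_inv z := Subtype.ext (funext fun n => by simp)
  right_inv z := Subtype.ext (funext fun n => by simp)
  continuous_toFun := cont_shift α β 1 _
  continuous_invFun := cont_shift α β (-1) _

theorem shift_zpow (α β : ℝ) (j : ℤ) :
    ∀ (z : sys α β) (n : ℤ), ((shift α β ^ j) z).1 n = z.1 (n + j) := by
  induction j using Int.induction_on with
  | zero => intro z n; simp
  | succ j ih =>
    intro z n
    rw [zpow_add_one, Homeomorph.mul_apply, ih, ← add_assoc]
    rfl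
  | pred j ih =>
    intro z n
    rw [zpow_sub_one, Homeomorph.mul_apply, ih, ← add_sub_assoc]
    rfl

theorem expAlong_of_sep {X ι : Type*} [TopologicalSpace X] [CompactSpace X] [Nonempty X]
    [Fintype ι] [TopologicalSpace ι] [DiscreteTopology ι] (f : X ≃ₜ X) (S : Set ℤ) (c : X → ι)
    (hc : Continuous c) (hs : ∀ x y, (∀ j ∈ S, c ((f ^ j) x) = c ((f ^ j) y)) → x = y) :
    ExpAlong f S := by
  classical
  let e := Fintype.equivFin ι
  refine ⟨_, fun i => c ⁻¹' {e.symm i}, fun i => (isOpen_discrete _).preimage hc, ?_,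
    fun V hVo hVc k => ?_⟩
  · exact eq_univ_of_forall fun x => mem_iUnion.2 ⟨e (c x), by simp⟩
  obtain ⟨C, hC, hx⟩ : ∃ C ∈ V, ∀ x, (∀ j ∈ S, c ((f ^ j) x) = e.symm (k j)) → x ∈ C := by
    by_cases h : ∃ x, ∀ j ∈ S, c ((f ^ j) x) = e.symm (k j)
    · obtain ⟨x, hx⟩ := h
      obtain ⟨C, hC, hxC⟩ := mem_sUnion.1 (hVc ▸ mem_univ x)
      exact ⟨C, hC, fun y hy => hs x y (fun j hj => by rw [hx j hj, hy j hj]) ▸ hxC⟩
    · obtain ⟨C, hC, -⟩ := mem_sUnion.1 (hVc ▸ mem_univ (Classical.arbitrary X))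
      exact ⟨C, hC, fun y hy => absurd ⟨y, hy⟩ h⟩
  obtain ⟨t, ht⟩ := (hVo C hC).isClosed_compl.isCompact.elim_finite_subcover
    (fun j : S => {x | c ((f ^ (j : ℤ)) x) ≠ e.symm (k j)})
    (fun j => (isOpen_discrete {a | a ≠ e.symm (k j)}).preimage
      (hc.comp (f ^ (j : ℤ)).continuous)) (fun x hxC => by
      by_contra h
      simp only [mem_iUnion, not_exists, mem_ofPred_eq, not_not] at h
      exact hxC (hx x fun j hj => h ⟨j, hj⟩))
  refine ⟨t.image Subtype.val, fun j hj => ?_, C, hC, fun x hx' => ?_⟩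
  · obtain ⟨j, -, rfl⟩ := Finset.mem_image.1 hj
    exact j.2
  · by_contra h
    obtain ⟨j, hj, h2⟩ := mem_iUnion₂.1 (ht h)
    exact h2 (hx' j (Finset.mem_image_of_mem _ hj))

theorem exists_example {S : Set ℤ} (hu : ¬ BddAbove S) (hl : ¬ BddBelow S) :
    ∃ (X : Type) (_ : TopologicalSpace X), CompactSpace X ∧ TopologicalSpace.MetrizableSpace X ∧
      Infinite X ∧ ∃ f : X ≃ₜ X, ExpAlong f S := by
  obtain ⟨α, hα, hd⟩ := exists_alpha hu
  obtain ⟨β, h0, h1, hβ⟩ := exists_beta α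
  have := isCompact_iff_compactSpace.1 (isCompact_sys α β)
  have := sys_infinite h0 h1 hd
  refine ⟨sys α β, inferInstance, inferInstance, inferInstance, inferInstance, shift α β,
    expAlong_of_sep _ S (fun z => z.1 0)
      ((continuous_apply 0).comp continuous_subtype_val) fun x y h => Subtype.ext
      (sys_sep h0 h1 hd hα hβ hu hl x.2 y.2 fun s hs => ?_)⟩
  have := h s hs
  simpa only [shift_zpow, zero_add] using this

end Pool.Agent.MP_b50e26_gt.Times
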