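import Mathlib
import Pool.Agent.MP_b50e26_gt.Nil.Main
import Pool.Agent.MP_b50e26_gt.Times.Sys

/-! The sets of times along which refinement expansivity forces finiteness. -/

set_option autoImplicit false

namespace Pool.Agent.MP_b50e26_gt.Times

open Set

theorem finite_of_bdd {X : Type*} [TopologicalSpace X] [T1Space X] (f : X ≃ₜ X) {S : Set ℤ}
    (hS : BddAbove S ∨ BddBelow S) (h : ExpAlong f S) : Finite X := by
  classical
  by_contra hX
  rw [not_finite_iff_infinite] at hX
  obtain ⟨ε, b, hb⟩ : ∃ ε b : ℤ, ∀ s ∈ S, ∃ j : ℕ, s - b = j * ε := by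
    rcases hS with ⟨b, hb⟩ | ⟨b, hb⟩
    · exact ⟨-1, b, fun s hs => ⟨(b - s).toNat, by have := hb hs; omega⟩⟩
    · exact ⟨1, b, fun s hs => ⟨(s - b).toNat, by have := hb hs; omega⟩⟩
  let _ : MulAction (Multiplicative ℤ) X :=
    { smul := fun g x => (f ^ g.toAdd) x
      one_smul := fun x => by show (f ^ (0 : ℤ)) x = x; simp
      mul_smul := fun a b x => by
        show (f ^ (a.toAdd + b.toAdd)) x = (f ^ a.toAdd) ((f ^ b.toAdd) x)
        rw [zpow_add]; rfl }
  have _ : ContinuousConstSMul (Multiplicative ℤ) X := ⟨fun g => (f ^ g.toAdd).continuous⟩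
  obtain ⟨χ, h1, h2⟩ := Nil.main (G := Multiplicative ℤ) (X := X)
    (by
      obtain ⟨n, hn⟩ := Subgroup.nilpotent_iff_lowerCentralSeries.1
        (inferInstance : Group.IsNilpotent (Multiplicative ℤ))
      exact ⟨n, by rw [hn]; infer_instance⟩)
    (by simpa using infinite_univ)
    { toFun := fun χ => χ (Additive.ofMul (Multiplicative.ofAdd ε))
      map_add' := fun _ _ => rfl
      map_smul' := fun _ _ => rfl }
  obtain ⟨n, U, hUo, hUc, hU⟩ := h
  refine h2 ⟨n, fun i => (f ^ b) ⁻¹' U i, fun i => (hUo i).preimage (f ^ b).continuous,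
    by rw [← preimage_iUnion, hUc, preimage_univ], fun V hVo hVc k => ?_⟩
  obtain ⟨F, hF, C, hC, hN⟩ := hU V hVo hVc fun j => k (Multiplicative.ofAdd (j - b))
  refine ⟨F.image fun j => Multiplicative.ofAdd (j - b), ?_, C, hC, fun x hx => hN fun j hj => ?_⟩
  · intro g hg
    obtain ⟨s, hs, rfl⟩ := Finset.mem_image.1 hg
    obtain ⟨j, hj⟩ := hb s (hF hs)
    have e : Additive.ofMul (Multiplicative.ofAdd (s - b)) =
        j • Additive.ofMul (Multiplicative.ofAdd ε) := by
      rw [← ofMul_pow, ← ofAdd_nsmul, hj]; simp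
    show 0 ≤ χ _
    rw [e, map_nsmul]
    exact nsmul_nonneg h1 j
  · have h3 : (f ^ b) ((f ^ (j - b)) x) ∈ U (k (Multiplicative.ofAdd (j - b))) :=
      hx _ (Finset.mem_image_of_mem _ hj)
    rwa [← Homeomorph.mul_apply, ← zpow_add, add_sub_cancel] at h3

theorem main (S : Set ℤ) : List.TFAE
    [BddAbove S ∨ BddBelow S,
     ∀ (X : Type) [TopologicalSpace X] [T1Space X] (f : X ≃ₜ X), ExpAlong f S → Finite X,
     ∀ (X : Type) [TopologicalSpace X] [CompactSpace X] [TopologicalSpace.MetrizableSpace X]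
       (f : X ≃ₜ X), ExpAlong f S → Finite X] := by
  tfae_have 1 → 2 := fun h X _ _ f hf => finite_of_bdd f h hf
  tfae_have 2 → 3 := fun h X _ _ _ f hf => h X f hf
  tfae_have 3 → 1 := fun h => by
    by_contra hc
    rw [not_or] at hc
    obtain ⟨X, _, _, _, hi, f, hf⟩ := exists_example hc.1 hc.2
    exact not_finite_iff_infinite.2 hi (h X f hf)
  tfae_finish

end Pool.Agent.MP_b50e26_gt.Times
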